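import Mathlib

set_option autoImplicit false

open MeasureTheory Filter Topology Set Metric Real

namespace Pool.Agent.Results.MP_3b4bb3_an.NotSzego

/-- the kernel -/
noncomputable def K (z : ℂ) (θ : ℝ) : ℂ := (circleMap 0 1 θ + z) / (circleMap 0 1 θ - z)

lemma K_re (z : ℂ) (θ : ℝ) : (K z θ).re = (1 - ‖z‖ ^ 2) / ‖circleMap 0 1 θ - z‖ ^ 2 := by
  have := congrFun (poissonKernel_eq_re_herglotzRieszKernel (c := 0) (w := z)) (circleMap 0 1 θ)
  simpa [poissonKernel_def, herglotzRieszKernel_def, K] using this.symm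

lemma K_re_nonneg {z : ℂ} (hz : ‖z‖ < 1) (θ : ℝ) : 0 ≤ (K z θ).re := by
  rw [K_re]
  exact div_nonneg (by nlinarith [norm_nonneg z]) (sq_nonneg _)

lemma K_meas (z : ℂ) : Measurable (K z) := by unfold K; fun_prop

lemma K_int {z : ℂ} (hz : ‖z‖ < 1) {ν : Measure ℝ} {w : ℝ → ℝ} (hw : Integrable w ν) :
    Integrable (fun θ => K z θ * w θ) ν := by
  refine hw.ofReal.bdd_mul (c := 2 / (1 - ‖z‖)) (K_meas z).aestronglyMeasurable
    (Eventually.of_forall fun θ => ?_)
  have h1 := norm_add_le (circleMap 0 1 θ) z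
  have h2 := norm_sub_norm_le (circleMap 0 1 θ) z
  rw [norm_circleMap_zero, abs_one] at h1 h2
  rw [K, norm_div]
  exact div_le_div₀ (by norm_num) (by linarith) (by linarith) h2

lemma re_nonneg {z : ℂ} (hz : ‖z‖ < 1) {ν : Measure ℝ} {w : ℝ → ℝ} (hw : Integrable w ν)
    (h0 : ∀ θ, 0 ≤ w θ) : 0 ≤ (∫ θ, K z θ * w θ ∂ν).re := by
  rw [← RCLike.re_to_complex, ← integral_re (K_int hz hw)]
  exact integral_nonneg fun θ => by simpa using mul_nonneg (K_re_nonneg hz θ) (h0 θ)

lemma lower {δ t c : ℝ} (h0 : 0 < δ) (h1 : δ ≤ 1) {ν : Measure ℝ} [IsFiniteMeasure ν] {w : ℝ → ℝ}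
    (hw : Integrable w ν) (w0 : ∀ θ, 0 ≤ w θ) {S : Set ℝ} (hS : MeasurableSet S)
    (hs : S ⊆ closedBall t δ) (c0 : 0 ≤ c) (hc : ∀ θ ∈ S, c ≤ w θ) :
    c / (4 * δ) * ν.real S ≤ (∫ θ, K (circleMap 0 (1 - δ) t) θ * w θ ∂ν).re := by
  have hn : ‖circleMap 0 (1 - δ) t‖ = 1 - δ := by
    rw [norm_circleMap_zero, abs_of_nonneg (by linarith)]
  have hz : ‖circleMap 0 (1 - δ) t‖ < 1 := by linarith
  have hi := K_int hz hw
  rw [← RCLike.re_to_complex, ← integral_re hi]
  refine (setIntegral_ge_of_const_le_real hS (measure_ne_top _ _) (fun θ hθ => ?_)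
    hi.re.integrableOn).trans (setIntegral_le_integral hi.re (Eventually.of_forall fun θ => by
      simpa using mul_nonneg (K_re_nonneg hz θ) (w0 θ)))
  have a1 : ‖circleMap 0 1 θ - circleMap 0 (1 - δ) t‖ ≤ 2 * δ := by
    have b1 : ‖circleMap 0 1 θ - circleMap 0 1 t‖ ≤ δ := by
      have := (lipschitzWith_circleMap 0 1).dist_le_mul θ t
      rw [dist_eq_norm] at this
      simpa using this.trans (by simpa using hs hθ)
    have b2 : ‖circleMap 0 1 t - circleMap 0 (1 - δ) t‖ = δ := by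
      simp only [circleMap, zero_add, ← sub_mul, ← Complex.ofReal_sub, norm_mul]
      simp [abs_of_pos h0]
    linarith [norm_sub_le_norm_sub_add_norm_sub (circleMap 0 1 θ) (circleMap 0 1 t)
      (circleMap 0 (1 - δ) t)]
  have a2 : δ ≤ ‖circleMap 0 1 θ - circleMap 0 (1 - δ) t‖ := by
    have := norm_sub_norm_le (circleMap 0 1 θ) (circleMap 0 (1 - δ) t)
    rw [hn, norm_circleMap_zero, abs_one] at this
    linarith
  have a3 : 1 / (4 * δ) ≤ (K (circleMap 0 (1 - δ) t) θ).re := by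
    rw [K_re, hn, div_le_div_iff₀ (by positivity) (pow_pos (h0.trans_le a2) 2)]
    nlinarith [pow_le_pow_left₀ (norm_nonneg _) a1 2, mul_nonneg (sq_nonneg δ) (sub_nonneg.2 h1)]
  simp only [RCLike.re_to_complex, Complex.mul_re, Complex.ofReal_re, Complex.ofReal_im, mul_zero,
    sub_zero]
  calc c / (4 * δ) = 1 / (4 * δ) * c := by ring
    _ ≤ _ := mul_le_mul a3 (hc θ hθ) c0 (K_re_nonneg hz θ)

lemma K_total {z : ℂ} (hz : ‖z‖ < 1) : ∫ θ in Ioc 0 (2 * π), K z θ = 2 * π := by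
  have h := circleIntegral.integral_sub_inv_of_mem_ball (c := 0) (R := 1) (w := z) (by simpa)
  have ne : ∀ θ, circleMap 0 1 θ - z ≠ 0 := fun θ =>
    sub_ne_zero.2 (circleMap_ne_mem_ball (by simpa) θ)
  have e : ∀ θ, deriv (circleMap 0 1) θ • (circleMap 0 1 θ - z)⁻¹ =
      Complex.I / 2 * (K z θ + 1) := fun θ => by
    have := ne θ
    rw [deriv_circleMap, K, smul_eq_mul]; field_simp; ring
  have hi : Integrable (fun θ => K z θ) (volume.restrict (Ioc 0 (2 * π))) := by
    simpa using K_int hz (integrable_const (μ := volume.restrict (Ioc 0 (2 * π))) (1 : ℝ))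
  rw [circleIntegral, intervalIntegral.integral_of_le (by positivity)] at h
  simp only [e] at h
  rw [integral_const_mul, integral_add hi (integrable_const _)] at h
  simp only [integral_const, MeasurableSet.univ, measureReal_restrict_apply, univ_inter,
    volume_real_Ioc, sub_zero, max_eq_left two_pi_pos.le, Complex.real_smul, mul_one] at h
  push_cast at h
  linear_combination (-2 * Complex.I) * h + ((∫ θ in Ioc 0 (2 * π), K z θ) - 2 * π) *
    Complex.I_mul_I

/-- the boundary profile -/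
noncomputable def u (θ : ℝ) : ℝ := exp (-(⌊θ⁻¹⌋₊ : ℝ))

lemma u_pos (θ : ℝ) : 0 < u θ := exp_pos _

lemma u_meas : Measurable u := by unfold u; fun_prop

lemma u_int : IntegrableOn u (Ioc 0 (2 * π)) :=
  (integrable_const (1 : ℝ)).mono' u_meas.aestronglyMeasurable (Eventually.of_forall fun θ => by
    rw [Real.norm_of_nonneg (u_pos θ).le, u, exp_le_one_iff]; simp)

lemma u_mono {a b : ℝ} (ha : 0 < a) (h : a ≤ b) : u a ≤ u b := by
  rw [u, u, exp_le_exp, neg_le_neg_iff, Nat.cast_le]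
  exact Nat.floor_mono (inv_anti₀ ha h)

/-- the holomorphic function with real boundary part `u` -/
noncomputable def G (z : ℂ) : ℂ := (2 * π : ℝ)⁻¹ * ∫ θ in Ioc 0 (2 * π), K z θ * u θ

lemma G_diff : DifferentiableOn ℂ G (ball 0 1) := by
  classical
  have inj := injOn_circleMap_of_abs_sub_le (a := 0) (b := 2 * π) (c := 0) one_ne_zero
    (by simp [abs_of_pos pi_pos])
  rw [uIoc_of_le two_pi_pos.le] at inj
  have hf : ∀ θ ∈ Ioc 0 (2 * π), (u (Function.invFunOn (circleMap 0 1) (Ioc 0 (2 * π))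
      (circleMap 0 1 θ)) : ℂ) = u θ := fun θ hθ => by rw [inj.leftInvOn_invFunOn hθ]
  refine (differentiableOn_circleAverage_herglotzRieszKernel_smul (R := 1) (f := fun ζ =>
    (u (Function.invFunOn (circleMap 0 1) (Ioc 0 (2 * π)) ζ) : ℂ)) ?_).congr fun z _ => ?_
  · rw [CircleIntegrable, intervalIntegrable_iff_integrableOn_Ioc_of_le two_pi_pos.le]
    exact IntegrableOn.congr_fun u_int.ofReal (fun θ hθ => (hf θ hθ).symm) measurableSet_Ioc
  · rw [G, circleAverage_def, intervalIntegral.integral_of_le two_pi_pos.le, Complex.real_smul]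
    congr 1
    refine setIntegral_congr_fun measurableSet_Ioc fun θ hθ => ?_
    simp only [hf θ hθ, herglotzRieszKernel_def, sub_zero, smul_eq_mul, K]

lemma G_re (z : ℂ) : (G z).re = (2 * π)⁻¹ * (∫ θ in Ioc 0 (2 * π), K z θ * u θ).re := by
  rw [G, Complex.re_ofReal_mul]

lemma G_low {t δ : ℝ} (ht : t ∈ Ioc 0 (2 * π)) (h0 : 0 < δ) (h1 : δ ≤ 1) (h2 : δ ≤ t / 2) :
    u (t / 2) / (8 * π) ≤ (G (circleMap 0 (1 - δ) t)).re := by
  have := lower (t := t) h0 h1 u_int (fun θ => (u_pos θ).le) (S := Icc (t - δ) t) measurableSet_Icc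
    (by rw [Real.closedBall_eq_Icc]; exact Icc_subset_Icc le_rfl (by linarith)) (u_pos (t / 2)).le
    fun θ hθ => u_mono (half_pos ht.1) (by linarith [hθ.1])
  rw [measureReal_restrict_apply measurableSet_Icc, inter_eq_left.2
    (Icc_subset_Ioc_iff (by linarith) |>.2 ⟨by linarith [ht.1], ht.2⟩), volume_real_Icc_of_le (by linarith),
    sub_sub_cancel] at this
  rw [G_re]
  refine le_trans (le_of_eq ?_) (mul_le_mul_of_nonneg_left this (by positivity))
  field_simp
  ring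

lemma G_lim {t : ℝ} (ht : t ∈ Ioo 0 (2 * π)) (hu : ∀ᶠ θ in 𝓝 t, u θ = u t) : ∃ L : ℂ,
    L.re = u t ∧ Tendsto (fun r => G (circleMap 0 r t)) (𝓝[<] 1) (𝓝 L) := by
  obtain ⟨δ, δ0, hδ⟩ := Metric.eventually_nhds_iff_ball.1 hu
  have ne : ∀ r ∈ Icc (0 : ℝ) 1, ∀ θ ∈ Icc 0 (2 * π) \ ball t δ,
      circleMap 0 1 θ - circleMap 0 r t ≠ 0 := by
    intro r hr θ hθ h
    rw [sub_eq_zero] at h
    have h1 := congrArg norm h
    rw [norm_circleMap_zero, norm_circleMap_zero, abs_one, abs_of_nonneg hr.1] at h1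
    subst h1
    have := eq_of_circleMap_eq one_ne_zero
      (abs_lt.2 ⟨by linarith [hθ.1.1, ht.2], by linarith [hθ.1.2, ht.1]⟩) h
    exact hθ.2 (this ▸ mem_ball_self δ0)
  have ct : ContinuousOn (fun p : ℝ × ℝ => K (circleMap 0 p.1 t) p.2)
      (Icc 0 1 ×ˢ (Icc 0 (2 * π) \ ball t δ)) := by
    refine ContinuousOn.div ?_ ?_ fun p hp => ne _ hp.1 _ hp.2 <;>
    · unfold circleMap; fun_prop
  obtain ⟨M, hM⟩ := (isCompact_Icc.prod (isCompact_Icc.diff isOpen_ball)).exists_bound_of_continuousOn ct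
  have ev : ∀ᶠ r : ℝ in 𝓝[<] 1, r ∈ Ioo (0 : ℝ) 1 := Ioo_mem_nhdsLT one_pos
  have iu : IntegrableOn (fun θ => u θ - u t) (Ioc 0 (2 * π)) := u_int.sub (integrable_const _)
  have lim : Tendsto (fun r => ∫ θ in Ioc 0 (2 * π), K (circleMap 0 r t) θ * (u θ - u t : ℝ))
      (𝓝[<] 1) (𝓝 (∫ θ in Ioc 0 (2 * π), K (circleMap 0 1 t) θ * (u θ - u t : ℝ))) := by
    refine tendsto_integral_filter_of_dominated_convergence (fun θ => M * ‖u θ - u t‖)
      (Eventually.of_forall fun r => ((K_meas _).mul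
        (Complex.measurable_ofReal.comp (u_meas.sub_const _))).aestronglyMeasurable)
      (ev.mono fun r hr => ?_) (iu.norm.const_mul M) ?_
    · filter_upwards [ae_restrict_mem measurableSet_Ioc] with θ hθ
      by_cases hb : θ ∈ ball t δ
      · simp [hδ θ hb]
      · rw [norm_mul, Complex.norm_real]
        exact mul_le_mul_of_nonneg_right
          (hM (r, θ) ⟨Ioo_subset_Icc_self hr, Ioc_subset_Icc_self hθ, hb⟩) (norm_nonneg _)
    · filter_upwards [ae_restrict_mem measurableSet_Ioc] with θ hθ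
      by_cases hb : θ ∈ ball t δ
      · simp [hδ θ hb]
      · refine Tendsto.mul_const _ (tendsto_nhdsWithin_of_tendsto_nhds (ContinuousAt.tendsto
          (f := fun r => K (circleMap 0 r t) θ) (ContinuousAt.div ?_ ?_
            (ne 1 ⟨zero_le_one, le_rfl⟩ θ ⟨Ioc_subset_Icc_self hθ, hb⟩)))) <;>
        · unfold circleMap; fun_prop
  refine ⟨_, ?_, ((lim.const_mul ((2 * π : ℝ) : ℂ)⁻¹).add_const (u t : ℂ)).congr'
    (ev.mono fun r hr => ?_)⟩
  · have z : ∀ θ, (K (circleMap 0 1 t) θ * (u θ - u t : ℝ)).re = 0 := fun θ => by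
      simp [K_re]
    have : (∫ θ in Ioc 0 (2 * π), K (circleMap 0 1 t) θ * (u θ - u t : ℝ)).re = 0 := by
      by_cases hi : IntegrableOn (fun θ => K (circleMap 0 1 t) θ * (u θ - u t : ℝ)) (Ioc 0 (2 * π))
      · rw [← RCLike.re_to_complex, ← integral_re hi]
        simp only [RCLike.re_to_complex, z, integral_zero]
      · rw [integral_undef hi, Complex.zero_re]
    rw [Complex.add_re, ← Complex.ofReal_inv, Complex.re_ofReal_mul, this]
    simp
  · have hz : ‖circleMap 0 r t‖ < 1 := by rw [norm_circleMap_zero, abs_of_pos hr.1]; exact hr.2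
    have e := integral_sub (K_int hz u_int)
      (K_int hz (integrable_const (μ := volume.restrict (Ioc 0 (2 * π))) (u t)))
    rw [integral_mul_const, K_total hz] at e
    simp only [Complex.ofReal_sub, mul_sub, e, G]
    have : (π : ℂ) ≠ 0 := by exact_mod_cast pi_ne_zero
    push_cast
    field_simp
    ring

theorem result : ∃ χ : ℂ → ℂ, DifferentiableOn ℂ χ (ball 0 1) ∧
    (∀ z ∈ ball (0 : ℂ) 1, ‖χ z‖ ≤ 1) ∧ χ 0 = 0 ∧
    (∀ ε : ℂ → ℂ, DifferentiableOn ℂ ε (ball 0 1) → (∀ z ∈ ball (0 : ℂ) 1, ‖ε z‖ ≤ 1) →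
      ∀ σ : Measure ℝ, IsFiniteMeasure σ → σ (Ioc 0 (2 * π))ᶜ = 0 →
        (∀ z ∈ ball (0 : ℂ) 1, (1 + χ z * ε z) / (1 - χ z * ε z) =
          (∫ θ, (circleMap 0 1 θ + z) / (circleMap 0 1 θ - z) ∂σ) / (2 * π)) →
        σ ≪ volume) ∧
    ∃ g : ℝ → ℂ, (∀ᵐ θ ∂volume.restrict (Ioc 0 (2 * π)),
        Tendsto (fun r : ℝ => χ (circleMap 0 r θ)) (𝓝[<] 1) (𝓝 (g θ)) ∧ ‖g θ‖ < 1) ∧
      ∫⁻ θ in Ioc 0 (2 * π), ENNReal.ofReal (-log (1 - ‖g θ‖ ^ 2)) = ⊤ := by
  have nb : ∀ z : ℂ, ‖z‖ < 1 → ‖z * Complex.exp (-G z)‖ ≤ exp (-(G z).re) := fun z hz => by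
    rw [norm_mul, Complex.norm_exp, Complex.neg_re]
    exact mul_le_of_le_one_left (exp_pos _).le hz.le
  refine ⟨fun z => z * Complex.exp (-G z), differentiableOn_id.mul G_diff.neg.cexp,
    fun z hz => ?_, zero_mul _, fun ε _ hε σ _ hσ hF => ?_, ?_⟩
  · rw [mem_ball_zero_iff] at hz
    refine (nb z hz).trans (exp_le_one_iff.2 ?_)
    rw [G_re, neg_nonpos]
    exact mul_nonneg (by positivity) (re_nonneg hz u_int fun θ => (u_pos θ).le)
  · have key : ∀ t ∈ Ioc 0 (2 * π), ∃ k : ℕ, ∀ᶠ δ in 𝓝[>] 0,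
        σ (closedBall t δ) ≤ (k • volume) (closedBall t δ) := by
      intro t ht
      obtain ⟨q, hq⟩ : ∃ q, q = exp (-(u (t / 2) / (8 * π))) := ⟨_, rfl⟩
      have q1 : q < 1 := by
        rw [hq, exp_lt_one_iff, neg_lt_zero]; have := u_pos (t / 2); positivity
      obtain ⟨k, hk⟩ := exists_nat_ge (8 * π / (1 - q))
      refine ⟨k, ?_⟩
      filter_upwards [Ioc_mem_nhdsGT one_pos, Ioc_mem_nhdsGT (half_pos ht.1)] with δ h1 h2
      have hz : ‖circleMap 0 (1 - δ) t‖ < 1 := by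
        rw [norm_circleMap_zero, abs_of_nonneg (by linarith [h1.2])]; linarith [h1.1]
      have a1 := lower (t := t) h1.1 h1.2 (integrable_const (μ := σ) (1 : ℝ)) (fun _ => zero_le_one)
        measurableSet_closedBall Subset.rfl zero_le_one fun _ _ => le_rfl
      have a2 := hF _ (mem_ball_zero_iff.2 hz)
      have a3 : ‖circleMap 0 (1 - δ) t * Complex.exp (-G (circleMap 0 (1 - δ) t)) *
          ε (circleMap 0 (1 - δ) t)‖ ≤ q := by
        rw [norm_mul, hq]
        exact (mul_le_of_le_one_right (norm_nonneg _) (hε _ (mem_ball_zero_iff.2 hz))).trans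
          ((nb _ hz).trans (exp_le_exp.2 (neg_le_neg (G_low ht h1.1 h1.2 h2.2))))
      generalize circleMap 0 (1 - δ) t * Complex.exp (-G (circleMap 0 (1 - δ) t)) *
          ε (circleMap 0 (1 - δ) t) = b at a2 a3
      have a4 : ‖(1 + b) / (1 - b)‖ ≤ 2 / (1 - q) := by
        have b1 := norm_add_le 1 b
        have b2 := norm_sub_norm_le 1 b
        rw [norm_one] at b1 b2
        rw [norm_div]
        exact div_le_div₀ (by norm_num) (by linarith) (by linarith) (by linarith)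
      rw [a2, norm_div, div_le_iff₀ (by simp [pi_pos.ne'])] at a4
      simp only [Complex.ofReal_one, mul_one] at a1
      have a5 := (a1.trans (Complex.re_le_norm _)).trans a4
      have d0 := h1.1
      rw [norm_mul, Complex.norm_real, Real.norm_of_nonneg pi_pos.le, Complex.norm_two,
        one_div_mul_eq_div, div_le_iff₀ (by positivity)] at a5
      rw [Measure.smul_apply, Real.volume_closedBall, nsmul_eq_mul, ← ENNReal.ofReal_natCast,
        ← ENNReal.ofReal_mul (by positivity), ← ofReal_measureReal]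
      refine ENNReal.ofReal_le_ofReal (a5.trans ?_)
      calc _ = 8 * π / (1 - q) * (2 * δ) := by ring
        _ ≤ _ := by gcongr
    refine Measure.AbsolutelyContinuous.mk fun S _ h0 => ?_
    refine measure_mono_null (t := (Ioc 0 (2 * π))ᶜ ∪ ⋃ k : ℕ, S ∩ {t | ∀ᶠ δ in 𝓝[>] 0,
      σ (closedBall t δ) ≤ (k • volume) (closedBall t δ)}) (fun t ht => ?_)
      (measure_union_null hσ (measure_iUnion_null fun k => le_antisymm ?_ zero_le))
    · by_cases h : t ∈ Ioc 0 (2 * π)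
      · obtain ⟨k, hk⟩ := key t h
        exact Or.inr (mem_iUnion.2 ⟨k, ht, hk⟩)
      · exact Or.inl h
    · have : IsLocallyFiniteMeasure (k • (volume : Measure ℝ)) := by
        rw [← Nat.cast_smul_eq_nsmul NNReal]; infer_instance
      refine ((Besicovitch.vitaliFamily σ).measure_le_of_frequently_le (k • volume)
        Measure.AbsolutelyContinuous.rfl _ fun t ht =>
          (Besicovitch.tendsto_filterAt σ t).frequently
            (Eventually.frequently (f := 𝓝[>] (0 : ℝ)) (by exact ht.2))).trans_eq ?_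
      rw [Measure.smul_apply, measure_mono_null inter_subset_left h0, smul_zero]
  · have ae : ∀ᵐ t ∂volume.restrict (Ioc 0 (2 * π)), t ∈ Ioo 0 (2 * π) ∧ ∃ L : ℂ,
        L.re = u t ∧ Tendsto (fun r => G (circleMap 0 r t)) (𝓝[<] 1) (𝓝 L) := by
      rw [← restrict_Ioo_eq_restrict_Ioc]
      filter_upwards [ae_restrict_mem measurableSet_Ioo, ae_restrict_of_ae
        ((countable_range fun n : ℕ => (n : ℝ)⁻¹).ae_notMem volume)] with t ht hn
      refine ⟨ht, G_lim ht ?_⟩
      have a1 : (⌊t⁻¹⌋₊ : ℝ) < t⁻¹ := lt_of_le_of_ne (Nat.floor_le (inv_pos.2 ht.1).le)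
        fun h => hn ⟨⌊t⁻¹⌋₊, by simp only [h, inv_inv]⟩
      filter_upwards [(continuousAt_inv₀ ht.1.ne').eventually
        (Ioo_mem_nhds a1 (Nat.lt_floor_add_one _))] with θ hθ
      rw [u, u, (Nat.floor_eq_iff ((Nat.cast_nonneg _).trans hθ.1.le)).2 ⟨hθ.1.le, hθ.2⟩]
    obtain ⟨g, hg⟩ : ∃ g : ℝ → ℂ, ∀ᵐ t ∂volume.restrict (Ioc 0 (2 * π)),
        Tendsto (fun r => circleMap 0 r t * Complex.exp (-G (circleMap 0 r t))) (𝓝[<] 1)
          (𝓝 (g t)) ∧ ‖g t‖ = exp (-u t) := by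
      refine ⟨fun t => limUnder (𝓝[<] 1)
        fun r => circleMap 0 r t * Complex.exp (-G (circleMap 0 r t)), ?_⟩
      filter_upwards [ae] with t ⟨_, L, h1, h2⟩
      have c : Tendsto (fun r => circleMap 0 r t) (𝓝[<] 1) (𝓝 (circleMap 0 1 t)) :=
        tendsto_nhdsWithin_of_tendsto_nhds (ContinuousAt.tendsto (by unfold circleMap; fun_prop))
      have l := c.mul h2.neg.cexp
      rw [l.limUnder_eq]
      exact ⟨l, by simp [Complex.norm_exp, h1]⟩
    have e1 : ∀ t, exp (-u t) < 1 := fun t => exp_lt_one_iff.2 (neg_lt_zero.2 (u_pos t))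
    have e2 : ∀ t, 0 < 1 - exp (-u t) ^ 2 := fun t => by nlinarith [e1 t, exp_pos (-u t)]
    refine ⟨g, hg.mono fun t ht => ⟨ht.1, ht.2.trans_lt (e1 t)⟩, ?_⟩
    rw [lintegral_congr_ae (g := fun t => ENNReal.ofReal (-log (1 - exp (-u t) ^ 2)))
      (hg.mono fun t ht => by simp only [ht.2])]
    by_contra hc
    have um := u_meas
    rw [← Ne, lintegral_ofReal_ne_top_iff_integrable (Measurable.aestronglyMeasurable (by fun_prop))
      (Eventually.of_forall fun t => neg_nonneg.2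
        (log_nonpos (e2 t).le (by nlinarith [exp_pos (-u t)])))] at hc
    have hi : IntegrableOn (fun t : ℝ => t⁻¹) (Ioc 0 (2 * π)) := by
      refine (hc.add (integrable_const 2)).mono' measurable_inv.aestronglyMeasurable ?_
      filter_upwards [ae_restrict_mem measurableSet_Ioc] with t ht
      have a1 : 1 - exp (-u t) ^ 2 ≤ 2 * u t := by
        rw [← exp_nat_mul, Nat.cast_ofNat]; linarith [add_one_le_exp (2 * -u t)]
      have a2 := log_le_log (e2 t) a1
      rw [log_mul two_ne_zero (u_pos t).ne', u, log_exp] at a2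
      rw [Real.norm_of_nonneg (inv_pos.2 ht.1).le, Pi.add_apply, u]
      linarith [Nat.lt_floor_add_one t⁻¹, log_two_lt_d9]
    rw [← intervalIntegrable_iff_integrableOn_Ioc_of_le two_pi_pos.le,
      intervalIntegrable_inv_iff] at hi
    rcases hi with h | h
    · exact two_pi_pos.ne h
    · exact h left_mem_uIcc

end Pool.Agent.Results.MP_3b4bb3_an.NotSzego
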